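import Pool.Agent.H500R2.WLP.Final

set_option autoImplicit false
set_option linter.unusedSectionVars false

open MvPolynomial Module

namespace Pool.Agent.Y276.Gp

section abs
variable {K : Type} [Field K] {ι : Type} [Fintype ι]

/-- graded spaces of functions on a finite set with a perfect duality -/
structure Adm (R : ℕ → Submodule K (ι → K)) (φ : ι → K) (D : ℕ) : Prop where
  one : R 0 = Submodule.span K {1}
  one' : (1 : ι → K) ∈ R 1
  mul : ∀ j, R (j + 1) = R 1 * R j
  top : R D = ⊤
  pos : 1 ≤ D
  phi : ∀ i, φ i ≠ 0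
  orth : ∀ f ∈ R (D - 1), ∑ i, φ i * f i = 0
  dim : ∀ j, j < D → finrank K (R j) + finrank K (R (D - 1 - j)) = Fintype.card ι

variable {R : ℕ → Submodule K (ι → K)} {φ : ι → K} {D : ℕ}

lemma Adm.mem_mul (h : Adm R φ D) {a b : ℕ} {f g : ι → K} (hf : f ∈ R a) (hg : g ∈ R b) :
    f * g ∈ R (a + b) := by
  have hRR : ∀ a b, R a * R b ≤ R (a + b) := by
    intro a
    induction a with
    | zero =>
      intro b
      rw [h.one, zero_add, Submodule.mul_le]
      intro m hm n hn
      obtain ⟨c, rfl⟩ := Submodule.mem_span_singleton.1 hm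
      rw [smul_mul_assoc, one_mul]
      exact (R b).smul_mem c hn
    | succ a ih =>
      intro b
      rw [h.mul a, mul_assoc]
      have e : a + 1 + b = (a + b) + 1 := by ring
      rw [e, h.mul (a + b)]
      exact mul_le_mul' le_rfl (ih b)
  exact hRR a b (Submodule.mul_mem_mul hf hg)

lemma Adm.mono (h : Adm R φ D) {a b : ℕ} (hab : a ≤ b) : R a ≤ R b :=
  Pool.Agent.H500R2.WLP.R_mono R h.one' h.mul hab

/-- the bilinear form -/
noncomputable def bil (φ : ι → K) : LinearMap.BilinForm K (ι → K) :=
  LinearMap.mk₂ K (fun f g => ∑ i, φ i * f i * g i)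
    (by intro a b c; rw [← Finset.sum_add_distrib]
        exact Finset.sum_congr rfl fun i _ => by simp only [Pi.add_apply]; ring)
    (by intro a b c; rw [Finset.smul_sum]
        exact Finset.sum_congr rfl fun i _ => by simp only [Pi.smul_apply, smul_eq_mul]; ring)
    (by intro a b c; rw [← Finset.sum_add_distrib]
        exact Finset.sum_congr rfl fun i _ => by simp only [Pi.add_apply]; ring)
    (by intro a b c; rw [Finset.smul_sum]
        exact Finset.sum_congr rfl fun i _ => by simp only [Pi.smul_apply, smul_eq_mul]; ring)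

lemma bil_apply (φ : ι → K) (f g : ι → K) : bil φ f g = ∑ i, φ i * f i * g i := rfl

lemma bil_nondeg (hφ : ∀ i, φ i ≠ 0) : (bil φ).Nondegenerate := by
  classical
  have hsymm : ∀ f g, bil φ f g = bil φ g f := by
    intro f g
    rw [bil_apply, bil_apply]
    exact Finset.sum_congr rfl fun i _ => by ring
  have key : ∀ m : ι → K, (∀ n, bil φ m n = 0) → m = 0 := by
    intro m hm
    funext i
    have h1 := hm (Pi.single i 1)
    rw [bil_apply, Finset.sum_eq_single i] at h1
    · rw [Pi.single_eq_same, mul_one] at h1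
      exact (mul_eq_zero.1 h1).resolve_left (hφ i)
    · intro j _ hj
      rw [Pi.single_eq_of_ne hj, mul_zero]
    · intro h; exact absurd (Finset.mem_univ i) h
  exact ⟨fun m hm => key m hm, fun m hm => key m fun n => by rw [hsymm]; exact hm n⟩

lemma Adm.dual (h : Adm R φ D) (j : ℕ) (hj : j < D) (f : ι → K) :
    (∀ g ∈ R j, ∑ i, φ i * f i * g i = 0) ↔ f ∈ R (D - 1 - j) := by
  have hle : R (D - 1 - j) ≤ (bil φ).orthogonal (R j) := by
    intro u hu
    rw [LinearMap.BilinForm.mem_orthogonal_iff]
    intro g hg
    show bil φ g u = 0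
    rw [bil_apply]
    have h1 := h.mem_mul hg hu
    rw [show j + (D - 1 - j) = D - 1 by omega] at h1
    have h2 := h.orth _ h1
    rw [← h2]
    exact Finset.sum_congr rfl fun i _ => by rw [Pi.mul_apply]; ring
  have heq : R (D - 1 - j) = (bil φ).orthogonal (R j) := by
    apply Submodule.eq_of_le_of_finrank_eq hle
    rw [LinearMap.BilinForm.finrank_orthogonal (bil_nondeg h.phi), Module.finrank_fintype_fun_eq_card]
    have := h.dim j hj
    omega
  rw [heq, LinearMap.BilinForm.mem_orthogonal_iff]
  constructor
  · intro h1 g hg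
    show bil φ g f = 0
    rw [bil_apply, ← h1 g hg]
    exact Finset.sum_congr rfl fun i _ => by ring
  · intro h1 g hg
    have h2 : bil φ g f = 0 := h1 g hg
    rw [bil_apply] at h2
    rw [← h2]
    exact Finset.sum_congr rfl fun i _ => by ring

/-- socle condition -/
lemma Adm.soc (h : Adm R φ D) {i : ℕ} (hi : i + 1 < D) (f : ι → K)
    (hf : ∀ v ∈ R 1, v * f ∈ R (i + 1)) : f ∈ R i := by
  have h1 := (h.dual (D - 1 - i) (by omega) f).1 (by
    intro g hg
    have e : D - 1 - i = (D - 2 - i) + 1 := by omega
    rw [e, h.mul] at hg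
    induction hg using Submodule.mul_induction_on' with
    | mem_mul_mem v hv g hg =>
      have h2 := (h.dual (D - 2 - i) (by omega) (v * f)).2 (by
        rw [show D - 1 - (D - 2 - i) = i + 1 by omega]; exact hf v hv) g hg
      rw [← h2]
      exact Finset.sum_congr rfl fun i _ => by simp only [Pi.mul_apply]; ring
    | add x _ y _ hx hy =>
      have : ∑ i, φ i * f i * (x + y) i = ∑ i, φ i * f i * x i + ∑ i, φ i * f i * y i := by
        rw [← Finset.sum_add_distrib]
        exact Finset.sum_congr rfl fun i _ => by simp only [Pi.add_apply]; ring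
      rw [this, hx, hy, add_zero])
  rwa [show D - 1 - (D - 1 - i) = i by omega] at h1

/-- socle condition in degree zero -/
lemma Adm.soc0 (h : Adm R φ D) (f : ι → K) (hf : ∀ v ∈ R 1, v * f ∈ R 0) (hD : 2 ≤ D) :
    f = 0 := by
  have horth : ∀ g : ι → K, ∑ i, φ i * f i * g i = 0 := by
    intro g
    have hg : g ∈ R D := by rw [h.top]; trivial
    have e : D = (D - 1) + 1 := by omega
    rw [e, h.mul] at hg
    induction hg using Submodule.mul_induction_on' with
    | mem_mul_mem v hv g hg =>
      have h2 := (h.dual (D - 1) (by omega) (v * f)).2 (by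
        rw [show D - 1 - (D - 1) = 0 by omega]; exact hf v hv) g hg
      rw [← h2]
      exact Finset.sum_congr rfl fun i _ => by simp only [Pi.mul_apply]; ring
    | add x _ y _ hx hy =>
      have : ∑ i, φ i * f i * (x + y) i = ∑ i, φ i * f i * x i + ∑ i, φ i * f i * y i := by
        rw [← Finset.sum_add_distrib]
        exact Finset.sum_congr rfl fun i _ => by simp only [Pi.add_apply]; ring
      rw [this, hx, hy, add_zero]
  exact (bil_nondeg h.phi).1 f horth

end abs

end Pool.Agent.Y276.Gp
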