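import Mathlib

/-!
# Definitions: Artinian reductions of finite sets of points
-/

set_option autoImplicit false

open MvPolynomial

namespace Pool.Agent.Y276.Gp

/-- the linear form `∑ c_i x_i` -/
noncomputable def lin {K : Type} [Field K] {n : ℕ} (c : Fin (n + 1) → K) :
    MvPolynomial (Fin (n + 1)) K := ∑ i, C (c i) * X i

/-- the homogeneous vanishing ideal of `Z` -/
noncomputable def van {K : Type} [Field K] {n : ℕ} (Z : Finset (Fin (n + 1) → K)) :
    Ideal (MvPolynomial (Fin (n + 1)) K) :=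
  Ideal.span {f | ∃ d : ℕ, f.IsHomogeneous d ∧ ∀ p ∈ Z, eval p f = 0}

/-- the ideal `I_Z + (∑ c_i x_i)` of the Artinian reduction -/
noncomputable def red {K : Type} [Field K] {n : ℕ} (Z : Finset (Fin (n + 1) → K))
    (c : Fin (n + 1) → K) : Ideal (MvPolynomial (Fin (n + 1)) K) :=
  van Z ⊔ Ideal.span {lin c}

/-- `Z` represents a reduced set of points of `P^n` with `Z.card` elements: its elements are nonzero
and pairwise not proportional -/
def IsPointSet {K : Type} [Field K] {n : ℕ} (Z : Finset (Fin (n + 1) → K)) : Prop :=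
  (∀ p ∈ Z, p ≠ 0) ∧ ∀ p ∈ Z, ∀ q ∈ Z, ∀ t : K, q = t • p → q = p

/-- `Z` is arithmetically Gorenstein: some Artinian reduction has a one-dimensional socle -/
def IsGorenstein {K : Type} [Field K] {n : ℕ} (Z : Finset (Fin (n + 1) → K)) : Prop :=
  ∃ c : Fin (n + 1) → K, (∀ p ∈ Z, eval p (lin c) ≠ 0) ∧
    ∃ s : MvPolynomial (Fin (n + 1)) K, s ∉ red Z c ∧ (∀ i, X i * s ∈ red Z c) ∧
      ∀ f : MvPolynomial (Fin (n + 1)) K, (∀ i, X i * f ∈ red Z c) → ∃ a : K, f - C a * s ∈ red Z c

/-- the weak Lefschetz property of the graded algebra with ideal `J` -/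
def WLP {K : Type} [Field K] {n : ℕ} (J : Ideal (MvPolynomial (Fin (n + 1)) K)) : Prop :=
  ∃ L : MvPolynomial (Fin (n + 1)) K, L.IsHomogeneous 1 ∧ ∀ d : ℕ,
    (∀ f : MvPolynomial (Fin (n + 1)) K, f.IsHomogeneous d → L * f ∈ J → f ∈ J) ∨
    (∀ g : MvPolynomial (Fin (n + 1)) K, g.IsHomogeneous (d + 1) →
      ∃ f : MvPolynomial (Fin (n + 1)) K, f.IsHomogeneous d ∧ g - L * f ∈ J)

/-- the values of polynomials on `Z` -/
noncomputable def ev {K : Type} [Field K] {n : ℕ} (Z : Finset (Fin (n + 1) → K)) :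
    MvPolynomial (Fin (n + 1)) K →ₐ[K] (Z → K) :=
  AlgHom.pi fun p : Z => MvPolynomial.aeval p.1

/-- the Hilbert function of `Z`: the dimension of the space of the functions on `Z` given by forms
of degree `d` -/
noncomputable def hilb {K : Type} [Field K] {n : ℕ} (Z : Finset (Fin (n + 1) → K)) (d : ℕ) : ℕ :=
  Module.finrank K ((homogeneousSubmodule (Fin (n + 1)) K d).map (ev Z).toLinearMap)

/-- the h-vector of `Z` -/
noncomputable def hvec {K : Type} [Field K] {n : ℕ} (Z : Finset (Fin (n + 1) → K)) : ℕ → ℕ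
  | 0 => hilb Z 0
  | d + 1 => hilb Z (d + 1) - hilb Z d

end Pool.Agent.Y276.Gp
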