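import Pool.Agent.Y276.Gp.Crit
import Pool.Agent.Y276.Gp.Stm

set_option autoImplicit false
set_option linter.unusedSectionVars false

open MvPolynomial Module

namespace Pool.Agent.Y276.Gp

open Pool.Agent.H500R2.WLP (Rd mem_Rd IZ)

variable {K : Type} [Field K] {n : ℕ}

lemma red_eq (Z : Finset (Fin (n + 1) → K)) (c : Fin (n + 1) → K) :
    red Z c = IZ Z ⊔ Ideal.span {Pool.Agent.H500R2.WLP.lin c} := rfl

lemma ev_eq (Z : Finset (Fin (n + 1) → K)) : ev Z = Pool.Agent.H500R2.WLP.ev Z := rfl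

lemma hilb_eq (Z : Finset (Fin (n + 1) → K)) (d : ℕ) : hilb Z d = finrank K (Rd Z d) := rfl

lemma lin_eq (c : Fin (n + 1) → K) : lin c = Pool.Agent.H500R2.WLP.lin c := rfl

section gor
variable {Z : Finset (Fin (n + 1) → K)} {φ : Z → K} {D : ℕ}

theorem gorenstein (hZ : Z.Nonempty) (c0 : Fin (n + 1) → K) (h0 : ∀ p ∈ Z, eval p (lin c0) = 1)
    (hD : 2 ≤ D) (h : Adm (Rd Z) φ D) : IsGorenstein Z := by
  obtain ⟨p0, hp0⟩ := hZ
  have hev1 : ev Z (lin c0) = 1 := by
    funext p
    have := h0 p.1 p.2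
    rw [ev_eq, Pool.Agent.H500R2.WLP.ev_apply, this]; rfl
  have hmemJ : ∀ (d : ℕ) (f : MvPolynomial (Fin (n + 1)) K), f.IsHomogeneous (d + 1) →
      (f ∈ red Z c0 ↔ ev Z f ∈ Rd Z d) := by
    intro d f hf
    rw [red_eq, Pool.Agent.H500R2.WLP.mem_J Z c0 d f hf]
    constructor
    · rintro ⟨g, hg, hfg⟩
      rw [ev_eq, hfg, ← ev_eq, ← lin_eq, hev1, mul_one]
      exact hg
    · intro hf1
      exact ⟨ev Z f, hf1, by rw [← ev_eq, ← lin_eq, hev1, mul_one]⟩
  have hlow : ∀ f : Z → K, ∑ i, φ i * f i = 0 ↔ f ∈ Rd Z (D - 1) := by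
    intro f
    have := h.dual 0 (by omega) f
    rw [Nat.sub_zero] at this
    rw [← this]
    constructor
    · intro h1 g hg
      rw [h.one] at hg
      obtain ⟨a, rfl⟩ := Submodule.mem_span_singleton.1 hg
      have : ∑ i, φ i * f i * (a • (1 : Z → K)) i = a * ∑ i, φ i * f i := by
        rw [Finset.mul_sum]
        exact Finset.sum_congr rfl fun i _ => by
          simp only [Pi.smul_apply, Pi.one_apply, smul_eq_mul]; ring
      rw [this, h1, mul_zero]
    · intro h1
      have := h1 1 (by rw [h.one]; exact Submodule.mem_span_singleton_self _)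
      simpa using this
  classical
  -- a function outside `R_{D-1}`
  set f1 : Z → K := Pi.single ⟨p0, hp0⟩ 1 with hf1
  have hf1s : ∑ i, φ i * f1 i ≠ 0 := by
    rw [Finset.sum_eq_single ⟨p0, hp0⟩]
    · rw [hf1, Pi.single_eq_same, mul_one]
      exact h.phi _
    · intro j _ hj
      rw [hf1, Pi.single_eq_of_ne hj, mul_zero]
    · intro h'; exact absurd (Finset.mem_univ _) h'
  obtain ⟨s, hs, hsev⟩ := (mem_Rd Z D f1).1 (by rw [h.top]; trivial)
  have hsD : s.IsHomogeneous ((D - 1) + 1) := by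
    rwa [show D - 1 + 1 = D by omega]
  refine ⟨c0, fun p hp => by rw [h0 p hp]; exact one_ne_zero, s, ?_, ?_, ?_⟩
  · intro hs'
    rw [hmemJ _ s hsD, ev_eq, hsev, ← hlow] at hs'
    exact hf1s hs'
  · intro i
    have h1 : (X i * s : MvPolynomial (Fin (n + 1)) K).IsHomogeneous (D + 1) := by
      have := (isHomogeneous_X K i).mul hs
      rwa [Nat.add_comm 1 D] at this
    rw [hmemJ _ _ h1, h.top]
    trivial
  · intro f hf
    set a : K := (∑ i, φ i * ev Z (homogeneousComponent D f) i) / ∑ i, φ i * f1 i with ha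
    refine ⟨a, ?_⟩
    have hcompJ : ∀ (j : Fin (n + 1)) (i : ℕ), X j * homogeneousComponent i f ∈ red Z c0 := by
      intro j i
      have h1 := Pool.Agent.H500R2.WLP.J_component Z c0 _ (hf j) (i + 1)
      rw [mul_comm, Pool.Agent.H500R2.WLP.TC2.comp_mul i f (X j) (isHomogeneous_X K j),
        mul_comm] at h1
      exact h1
    have hvJ : ∀ i, ∀ v ∈ Rd Z 1, v * ev Z (homogeneousComponent i f) ∈ Rd Z i := by
      intro i v hv
      obtain ⟨c, rfl⟩ := Pool.Agent.H500R2.WLP.rd_one_surj Z v hv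
      have h1 : lin c * homogeneousComponent i f ∈ red Z c0 := by
        unfold lin
        rw [Finset.sum_mul]
        refine Ideal.sum_mem _ fun j _ => ?_
        rw [mul_assoc]
        exact Ideal.mul_mem_left _ _ (hcompJ j i)
      have h2 : (lin c * homogeneousComponent i f).IsHomogeneous (i + 1) := by
        have := (Pool.Agent.H500R2.WLP.lin_isHomogeneous c).mul
          (homogeneousComponent_isHomogeneous i f)
        rwa [Nat.add_comm 1 i] at this
      rw [hmemJ _ _ h2, map_mul] at h1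
      exact h1
    have hall : ∀ i, homogeneousComponent i (f - C a * s) ∈ red Z c0 := by
      intro i
      rw [map_sub, homogeneousComponent_C_mul, homogeneousComponent_of_mem hs]
      by_cases hiD : i = D
      · subst hiD
        rw [if_pos rfl]
        have h1 : (homogeneousComponent i f - C a * s).IsHomogeneous ((i - 1) + 1) := by
          rw [show i - 1 + 1 = i by omega]
          exact (homogeneousComponent_isHomogeneous i f).sub (hs.C_mul a)
        rw [hmemJ _ _ h1, ← hlow]
        have h2 : ∀ p, ev Z (homogeneousComponent i f - C a * s) p =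
            ev Z (homogeneousComponent i f) p - a * f1 p := by
          intro p
          rw [map_sub, ← smul_eq_C_mul, map_smul, Pi.sub_apply, Pi.smul_apply, smul_eq_mul,
            ← hsev]
          rfl
        simp only [h2, mul_sub, Finset.sum_sub_distrib]
        have h3 : ∑ x : Z, φ x * (a * f1 x) = a * ∑ x, φ x * f1 x := by
          rw [Finset.mul_sum]
          exact Finset.sum_congr rfl fun i _ => by ring
        rw [h3, ha, div_mul_cancel₀ _ hf1s, sub_self]
      · rw [if_neg hiD, mul_zero, sub_zero]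
        rcases Nat.eq_zero_or_pos i with hi0 | hi0
        · subst hi0
          rw [red_eq, Pool.Agent.H500R2.WLP.mem_J_zero Z c0 _
            (homogeneousComponent_isHomogeneous 0 f)]
          exact h.soc0 _ (hvJ 0) hD
        · obtain ⟨k, rfl⟩ : ∃ k, i = k + 1 := ⟨i - 1, by omega⟩
          rw [hmemJ k _ (homogeneousComponent_isHomogeneous (k + 1) f)]
          rcases lt_or_gt_of_ne hiD with hlt | hgt
          · exact h.soc hlt _ (hvJ (k + 1))
          · have : Rd Z k = ⊤ := by
              rw [eq_top_iff, ← h.top]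
              exact h.mono (by omega)
            rw [this]; trivial
    rw [← sum_homogeneousComponent (f - C a * s)]
    exact Ideal.sum_mem _ fun i _ => hall i

/-- rank of the map `(F, G) ↦ F x - G l`, lower bound -/
lemma rank_ge {ι : Type} [Fintype ι]
    {x l : ι → K} (hx : ∀ i, x i ≠ 0) (V U W : Submodule K (ι → K))
    (hVW : ∀ f ∈ V, f * x ∈ W ∧ f * l ∈ W)
    (hinj : ∀ f ∈ V, ∀ g ∈ V, g * l = f * x → ∃ u ∈ U, g = u * x) :
    2 * finrank K V ≤ finrank K W + finrank K U := by
  set Ψ := Pool.Agent.H500R2.WLP.syz V x l with hΨ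
  have h1 := LinearMap.finrank_range_add_finrank_ker Ψ
  rw [Module.finrank_prod] at h1
  have h2 : finrank K (LinearMap.range Ψ) ≤ finrank K W := by
    apply Submodule.finrank_mono
    rintro _ ⟨p, rfl⟩
    rw [hΨ, Pool.Agent.H500R2.WLP.syz_apply]
    exact Submodule.sub_mem _ (hVW _ p.1.2).1 (hVW _ p.2.2).2
  have h3 : finrank K (LinearMap.ker Ψ) ≤ finrank K U := by
    -- the kernel embeds in `U`
    let T : LinearMap.ker Ψ →ₗ[K] (ι → K) := V.subtype ∘ₗ LinearMap.snd K V V ∘ₗ
      (LinearMap.ker Ψ).subtype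
    have hT : Function.Injective T := by
      rintro ⟨⟨f, g⟩, hfg⟩ ⟨⟨f', g'⟩, hfg'⟩ h0
      have hg : g = g' := Subtype.ext h0
      subst hg
      have h4 : Ψ (f, g) = 0 := hfg
      have h4' : Ψ (f', g) = 0 := hfg'
      rw [hΨ, Pool.Agent.H500R2.WLP.syz_apply, sub_eq_zero] at h4 h4'
      have hf : f = f' := by
        apply Subtype.ext
        funext i
        have := congrFun (h4.trans h4'.symm) i
        rw [Pi.mul_apply, Pi.mul_apply] at this
        exact mul_right_cancel₀ (hx i) this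
      subst hf
      rfl
    let Mx : (ι → K) →ₗ[K] (ι → K) := LinearMap.mulRight K x
    have h5 : LinearMap.range T ≤ U.map Mx := by
      rintro _ ⟨⟨⟨f, g⟩, hfg⟩, rfl⟩
      have h4 : Ψ (f, g) = 0 := hfg
      rw [hΨ, Pool.Agent.H500R2.WLP.syz_apply, sub_eq_zero] at h4
      obtain ⟨u, hu, hgu⟩ := hinj f f.2 g g.2 h4.symm
      exact ⟨u, hu, hgu.symm⟩
    calc finrank K (LinearMap.ker Ψ) = finrank K (LinearMap.range T) :=
          (LinearMap.finrank_range_of_inj hT).symm
      _ ≤ finrank K (U.map Mx) := Submodule.finrank_mono h5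
      _ ≤ finrank K U := Submodule.finrank_map_le _ _
  omega

/-- rank of the map `(F, G) ↦ F x - G l`, upper bound -/
lemma rank_le {ι : Type} [Fintype ι] {x l : ι → K} (hx : ∀ i, x i ≠ 0)
    (V U W : Submodule K (ι → K)) (hU : ∀ u ∈ U, u * x ∈ V ∧ u * l ∈ V)
    (hsurj : ∀ w ∈ W, ∃ f ∈ V, ∃ g ∈ V, w = f * x - g * l) :
    finrank K W + finrank K U ≤ 2 * finrank K V := by
  set Ψ := Pool.Agent.H500R2.WLP.syz V x l with hΨ
  have h1 := LinearMap.finrank_range_add_finrank_ker Ψ
  rw [Module.finrank_prod] at h1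
  have h2 : finrank K W ≤ finrank K (LinearMap.range Ψ) := by
    apply Submodule.finrank_mono
    intro w hw
    obtain ⟨f, hf, g, hg, rfl⟩ := hsurj w hw
    exact ⟨(⟨f, hf⟩, ⟨g, hg⟩), by rw [hΨ, Pool.Agent.H500R2.WLP.syz_apply]⟩
  have h3 : finrank K U ≤ finrank K (LinearMap.ker Ψ) := by
    let T : U →ₗ[K] LinearMap.ker Ψ :=
      { toFun := fun u => ⟨(⟨(u : ι → K) * l, (hU u u.2).2⟩, ⟨(u : ι → K) * x, (hU u u.2).1⟩), by
          rw [LinearMap.mem_ker, hΨ, Pool.Agent.H500R2.WLP.syz_apply]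
          show (u : ι → K) * l * x - (u : ι → K) * x * l = 0
          ring⟩
        map_add' := by
          intro u v
          apply Subtype.ext
          refine Prod.ext (Subtype.ext ?_) (Subtype.ext ?_)
          · exact add_mul _ _ _
          · exact add_mul _ _ _
        map_smul' := by
          intro a u
          apply Subtype.ext
          refine Prod.ext (Subtype.ext ?_) (Subtype.ext ?_)
          · exact smul_mul_assoc _ _ _
          · exact smul_mul_assoc _ _ _ }
    apply LinearMap.finrank_le_finrank_of_injective (f := T)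
    refine (injective_iff_map_eq_zero T).2 ?_
    intro u hu
    have h4 := congrArg (fun w : LinearMap.ker Ψ => ((w : V × V).2 : ι → K)) hu
    apply Subtype.ext
    funext i
    have h5 : ((u : ι → K) * x) i = 0 := congrFun h4 i
    rw [Pi.mul_apply] at h5
    exact (mul_eq_zero.1 h5).resolve_right (hx i)
  omega

theorem no_wlp (h : Adm (Rd Z) φ D) (c : Fin (n + 1) → K) (hc : ∀ p ∈ Z, eval p (lin c) ≠ 0)
    (d e : ℕ) (hde : d ≤ e)
    (h1 : finrank K (Rd Z (d + 2)) + finrank K (Rd Z d) < 2 * finrank K (Rd Z (d + 1)))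
    (h2 : 2 * finrank K (Rd Z (e + 1)) < finrank K (Rd Z (e + 2)) + finrank K (Rd Z e)) :
    ¬ WLP (red Z c) := by
  rintro ⟨L, hL, hmax⟩
  set l := ev Z L with hl
  set x := ev Z (lin c) with hx
  have hxne : ∀ p, x p ≠ 0 := by
    intro p
    have := hc p.1 p.2
    rw [hx, ev_eq, Pool.Agent.H500R2.WLP.ev_apply]
    exact this
  have hlR : l ∈ Rd Z 1 := (mem_Rd Z 1 _).2 ⟨L, hL, rfl⟩
  have hxR : x ∈ Rd Z 1 := (mem_Rd Z 1 _).2 ⟨lin c, Pool.Agent.H500R2.WLP.lin_isHomogeneous c, rfl⟩
  have hmul1 : ∀ {k : ℕ} {f v : Z → K}, f ∈ Rd Z k → v ∈ Rd Z 1 → f * v ∈ Rd Z (k + 1) :=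
    fun hf hv => h.mem_mul hf hv
  rcases hmax (d + 1) with hinj | hsurj
  · have := rank_ge hxne (l := l) (Rd Z (d + 1)) (Rd Z d) (Rd Z (d + 2))
      (fun f hf => ⟨hmul1 hf hxR, hmul1 hf hlR⟩) (by
        intro f hf g hg hfg
        obtain ⟨g', hg', rfl⟩ := (mem_Rd Z (d + 1) g).1 hg
        have h3 : (L * g').IsHomogeneous ((d + 1) + 1) := by
          have := hL.mul hg'
          rwa [Nat.add_comm 1] at this
        have h4 : L * g' ∈ red Z c := by
          rw [red_eq, Pool.Agent.H500R2.WLP.mem_J Z c (d + 1) _ h3]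
          refine ⟨f, hf, ?_⟩
          rw [map_mul]
          rw [mul_comm] at hfg
          exact hfg
        have h5 := hinj g' hg' h4
        rw [red_eq, Pool.Agent.H500R2.WLP.mem_J Z c d _ hg'] at h5
        exact h5)
    omega
  · -- surjectivity propagates
    have hs0 : ∀ w ∈ Rd Z (d + 2), ∃ f ∈ Rd Z (d + 1), ∃ g ∈ Rd Z (d + 1), w = f * x - g * l := by
      intro w hw
      obtain ⟨w', hw', rfl⟩ := (mem_Rd Z (d + 2) w).1 hw
      obtain ⟨f, hf, hfJ⟩ := hsurj w' hw'
      have h3 : (w' - L * f).IsHomogeneous ((d + 1) + 1) := by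
        have h4 := hL.mul hf
        rw [Nat.add_comm 1] at h4
        exact IsHomogeneous.sub hw' h4
      rw [red_eq, Pool.Agent.H500R2.WLP.mem_J Z c (d + 1) _ h3] at hfJ
      obtain ⟨g, hg, hgJ⟩ := hfJ
      refine ⟨g, hg, - ev Z f, Submodule.neg_mem _ ((mem_Rd Z (d + 1) _).2 ⟨f, hf, rfl⟩), ?_⟩
      rw [map_sub, map_mul] at hgJ
      have h5 : ev Z w' - l * ev Z f = g * x := hgJ
      show ev Z w' = _
      have h6 : ev Z w' = g * x + l * ev Z f := by rw [← h5]; ring
      rw [h6]; ring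
    have hs : ∀ k, d ≤ k → ∀ w ∈ Rd Z (k + 2),
        ∃ f ∈ Rd Z (k + 1), ∃ g ∈ Rd Z (k + 1), w = f * x - g * l := by
      intro k hk
      induction k, hk using Nat.le_induction with
      | base => exact hs0
      | succ k _ ih =>
        intro w hw
        rw [show k + 1 + 2 = (k + 2) + 1 by ring, h.mul] at hw
        induction hw using Submodule.mul_induction_on' with
        | mem_mul_mem v hv w hw =>
          obtain ⟨f, hf, g, hg, rfl⟩ := ih w hw
          refine ⟨f * v, hmul1 hf hv, g * v, hmul1 hg hv, ?_⟩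
          ring
        | add a _ b _ ha hb =>
          obtain ⟨f, hf, g, hg, rfl⟩ := ha
          obtain ⟨f', hf', g', hg', rfl⟩ := hb
          refine ⟨f + f', Submodule.add_mem _ hf hf', g + g', Submodule.add_mem _ hg hg', ?_⟩
          ring
    have := rank_le hxne (Rd Z (e + 1)) (Rd Z e) (Rd Z (e + 2))
      (fun u hu => ⟨hmul1 hu hxR, hmul1 hu hlR⟩) (hs e hde)
    omega

end gor

end Pool.Agent.Y276.Gp
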