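import Pool.Agent.Y276.Gp.Gor

set_option autoImplicit false
set_option linter.unusedSectionVars false

open MvPolynomial Module

namespace Pool.Agent.Y276.Gp

open Pool.Agent.H500R2.WLP (Rd mem_Rd IZ rd_zero rd_succ)

variable {K : Type} [Field K]

/-- composition with a map -/
def pull {P Q : Type} (σ : P → Q) : (Q → K) →ₐ[K] (P → K) where
  toFun g := fun p => g (σ p)
  map_one' := rfl
  map_mul' _ _ := rfl
  map_zero' := rfl
  map_add' _ _ := rfl
  commutes' _ := rfl

lemma pull_apply {P Q : Type} (σ : P → Q) (g : Q → K) (p : P) : pull σ g p = g (σ p) := rfl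

theorem realize {P : Type} [Fintype P] [Nonempty P] {R : ℕ → Submodule K (P → K)} {φ : P → K}
    {D : ℕ} (h : Adm R φ D) {n : ℕ} (hn : finrank K (R 1) = n + 1) :
    ∃ (Z : Finset (Fin (n + 1) → K)) (φ' : Z → K) (c0 : Fin (n + 1) → K), Z.Nonempty ∧
      IsPointSet Z ∧ (∀ p ∈ Z, eval p (lin c0) = 1) ∧ Adm (Rd Z) φ' D ∧
      Z.card = Fintype.card P ∧ ∀ d, finrank K (Rd Z d) = finrank K (R d) := by
  classical
  let b := (Module.finBasisOfFinrankEq K (R 1) hn)
  let pt : P → Fin (n + 1) → K := fun p j => (b j : P → K) p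
  have hsep : ∀ p q, pt p = pt q → p = q := by
    intro p q hpq
    have h1 : ∀ f ∈ R 1, f p = f q := by
      intro f hf
      have h2 := b.sum_repr ⟨f, hf⟩
      have h3 := congrArg (fun g : R 1 => (g : P → K)) h2
      simp only [Submodule.coe_sum, Submodule.coe_smul] at h3
      rw [← h3, Finset.sum_apply, Finset.sum_apply]
      refine Finset.sum_congr rfl fun j _ => ?_
      rw [Pi.smul_apply, Pi.smul_apply]
      congr 1
      exact congrFun hpq j
    have h2 : ∀ j, ∀ f ∈ R j, f p = f q := by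
      intro j
      induction j with
      | zero =>
        intro f hf
        rw [h.one] at hf
        obtain ⟨a, rfl⟩ := Submodule.mem_span_singleton.1 hf
        rfl
      | succ j ih =>
        intro f hf
        rw [h.mul] at hf
        induction hf using Submodule.mul_induction_on' with
        | mem_mul_mem v hv g hg => rw [Pi.mul_apply, Pi.mul_apply, h1 v hv, ih g hg]
        | add x _ y _ hx hy => rw [Pi.add_apply, Pi.add_apply, hx, hy]
    by_contra hne
    have h3 := h2 D (Pi.single p 1) (by rw [h.top]; trivial)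
    rw [Pi.single_eq_same, Pi.single_eq_of_ne (Ne.symm hne)] at h3
    exact one_ne_zero h3
  let Z : Finset (Fin (n + 1) → K) := Finset.univ.image pt
  have hmemZ : ∀ p, pt p ∈ Z := fun p => Finset.mem_image_of_mem _ (Finset.mem_univ _)
  let σ : P ≃ Z := Equiv.ofBijective (fun p => ⟨pt p, hmemZ p⟩) ⟨fun p q hpq =>
    hsep p q (congrArg Subtype.val hpq), fun z => by
      obtain ⟨p, _, hp⟩ := Finset.mem_image.1 z.2
      exact ⟨p, Subtype.ext hp⟩⟩
  have hσ : ∀ p, (σ p : Fin (n + 1) → K) = pt p := fun p => rfl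
  let T : (Z → K) →ₐ[K] (P → K) := pull σ
  have hTinj : Function.Injective T.toLinearMap := by
    intro f g hfg
    funext z
    have := congrFun hfg (σ.symm z)
    have h1 : f (σ (σ.symm z)) = g (σ (σ.symm z)) := this
    rwa [Equiv.apply_symm_apply] at h1
  have hTlin : ∀ c : Fin (n + 1) → K, T (Pool.Agent.H500R2.WLP.ev Z (lin c)) =
      ∑ j, c j • (b j : P → K) := by
    intro c
    funext p
    show Pool.Agent.H500R2.WLP.ev Z (lin c) (σ p) = _
    rw [Pool.Agent.H500R2.WLP.ev_apply, lin_eq, Pool.Agent.H500R2.WLP.eval_lin, Finset.sum_apply]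
    rfl
  have hmap : ∀ j, (Rd Z j).map T.toLinearMap = R j := by
    have hone : (Rd Z 1).map T.toLinearMap = R 1 := by
      apply le_antisymm
      · rintro _ ⟨f, hf, rfl⟩
        obtain ⟨c, rfl⟩ := Pool.Agent.H500R2.WLP.rd_one_surj Z f hf
        show T (Pool.Agent.H500R2.WLP.ev Z (lin c)) ∈ R 1
        rw [hTlin]
        exact Submodule.sum_mem _ fun j _ => Submodule.smul_mem _ _ (b j).2
      · intro f hf
        refine ⟨Pool.Agent.H500R2.WLP.ev Z (lin fun j => b.repr ⟨f, hf⟩ j),
          Pool.Agent.H500R2.WLP.rd_one_lin Z _, ?_⟩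
        show T (Pool.Agent.H500R2.WLP.ev Z (lin _)) = f
        rw [hTlin]
        have h2 := b.sum_repr ⟨f, hf⟩
        have h3 := congrArg (fun g : R 1 => (g : P → K)) h2
        simp only [Submodule.coe_sum, Submodule.coe_smul] at h3
        exact h3
    intro j
    induction j with
    | zero =>
      rw [rd_zero, Submodule.map_span, Set.image_singleton, h.one]
      congr 2
    | succ j ih =>
      rw [rd_succ, Submodule.map_mul, hone, ih, ← h.mul]
  have hfin : ∀ d, finrank K (Rd Z d) = finrank K (R d) := by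
    intro d
    rw [← hmap d]
    exact (Submodule.equivMapOfInjective _ hTinj (Rd Z d)).finrank_eq
  have hcard : Z.card = Fintype.card P := by
    rw [← Fintype.card_coe]
    exact (Fintype.card_congr σ).symm
  -- the coordinate one
  obtain ⟨c0, hc0⟩ : ∃ c0 : Fin (n + 1) → K, ∀ p ∈ Z, eval p (lin c0) = 1 := by
    refine ⟨fun j => b.repr ⟨1, h.one'⟩ j, ?_⟩
    intro p hp
    obtain ⟨p', _, rfl⟩ := Finset.mem_image.1 hp
    have h2 := b.sum_repr ⟨1, h.one'⟩
    have h3 := congrArg (fun g : R 1 => (g : P → K)) h2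
    simp only [Submodule.coe_sum, Submodule.coe_smul] at h3
    have h4 := congrFun h3 p'
    rw [Finset.sum_apply, Pi.one_apply] at h4
    rw [lin_eq, Pool.Agent.H500R2.WLP.eval_lin]
    exact h4
  refine ⟨Z, fun z => φ (σ.symm z), c0, ⟨pt (Classical.arbitrary P), hmemZ _⟩, ⟨?_, ?_⟩, hc0, ?_,
    hcard, hfin⟩
  · rintro p hp rfl
    have := hc0 0 hp
    rw [lin_eq, Pool.Agent.H500R2.WLP.eval_lin] at this
    simp at this
  · intro p hp q hq t hqt
    have h1 := hc0 p hp
    have h2 := hc0 q hq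
    rw [lin_eq, Pool.Agent.H500R2.WLP.eval_lin] at h1 h2
    rw [hqt] at h2
    have h3 : ∑ i, c0 i * (t • p) i = t * ∑ i, c0 i * p i := by
      rw [Finset.mul_sum]
      exact Finset.sum_congr rfl fun i _ => by rw [Pi.smul_apply, smul_eq_mul]; ring
    rw [h3, h1, mul_one] at h2
    rw [hqt, h2, one_smul]
  · refine ⟨rd_zero Z, ?_, rd_succ Z, ?_, h.pos, fun z => h.phi _, ?_, ?_⟩
    · have h1 : (1 : Z → K) = Pool.Agent.H500R2.WLP.ev Z (lin c0) := by
        funext p
        rw [Pool.Agent.H500R2.WLP.ev_apply, hc0 p.1 p.2, Pi.one_apply]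
      rw [h1]
      exact Pool.Agent.H500R2.WLP.rd_one_lin Z c0
    · rw [eq_top_iff]
      intro f _
      have h1 : T f ∈ (Rd Z D).map T.toLinearMap := by rw [hmap, h.top]; trivial
      obtain ⟨g, hg, hgf⟩ := h1
      have h2 : g = f := hTinj hgf
      rw [← h2]; exact hg
    · intro f hf
      have h1 : T f ∈ R (D - 1) := by
        rw [← hmap]; exact Submodule.mem_map_of_mem hf
      have h2 := h.orth _ h1
      rw [← h2]
      refine (Fintype.sum_equiv σ _ _ fun p => ?_).symm
      rw [Equiv.symm_apply_apply]; rfl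
    · intro j hj
      rw [hfin, hfin, h.dim j hj, Fintype.card_congr σ]

/-- the final form: a point set with prescribed dimensions -/
theorem assemble {P : Type} [Fintype P] [Nonempty P] {R : ℕ → Submodule K (P → K)} {φ : P → K}
    {D : ℕ} (h : Adm R φ D) (hD : 2 ≤ D) {n : ℕ} (hn : finrank K (R 1) = n + 1) (d e : ℕ)
    (hde : d ≤ e)
    (h1 : finrank K (R (d + 2)) + finrank K (R d) < 2 * finrank K (R (d + 1)))
    (h2 : 2 * finrank K (R (e + 1)) < finrank K (R (e + 2)) + finrank K (R e)) :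
    ∃ Z : Finset (Fin (n + 1) → K), IsPointSet Z ∧ IsGorenstein Z ∧ Z.card = Fintype.card P ∧
      (∀ d, hilb Z d = finrank K (R d)) ∧
      ∀ c : Fin (n + 1) → K, (∀ p ∈ Z, eval p (lin c) ≠ 0) → ¬ WLP (red Z c) := by
  obtain ⟨Z, φ', c0, hne, hps, hc0, hadm, hcard, hfin⟩ := realize h hn
  refine ⟨Z, hps, gorenstein hne c0 hc0 hD hadm, hcard, hfin, fun c hc => ?_⟩
  apply no_wlp hadm c hc d e hde
  · rw [hfin, hfin, hfin]; exact h1
  · rw [hfin, hfin, hfin]; exact h2

end Pool.Agent.Y276.Gp
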